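import Mathlib
import Pool.Agent.Lib_helper80.Encode

/-!
Polynomial vertex growth of finite sets of rational matrices is undecidable, already for a fixed
dimension and a fixed number of matrices.
-/

namespace Pool.Agent.Results.MP_4873f0_lc.Undecidable

open Pool.Agent.VertexGrowth
open Pool.Agent.Lib80

/-- There are a dimension `n` and a number `r` such that every algorithm `f` (a partial recursive
function on pairs of a dimension and a list of matrices) fails on some instance consisting of `r`
rational `n × n` matrices: on that instance `f` does not halt with the right answer to the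
question whether the set of the listed matrices has polynomial vertex growth. -/
theorem result : ∃ n r : ℕ, ∀ f : ℕ × List (List (List (ℤ × ℕ))) →. Bool, Partrec f →
    ∃ L : List (List (List (ℤ × ℕ))), L.length = r ∧ IsInstance n L ∧
      ¬ ∃ b ∈ f (n, L), (b = true ↔ PolynomialVertexGrowth (matrixSet n L)) := by
  classical
  obtain ⟨σ, i1, i2, nxt, ι, i3, i4, p, q, hp, hq, hSt⟩ := poly_system
  let n := Fintype.card (Idx σ ι)
  let ε : Idx σ ι ≃ Fin n := Fintype.equivFin _
  refine ⟨n, (instList ε nxt p q 0).length, fun f hf => ?_⟩
  by_contra hcon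
  push Not at hcon
  have key : ∀ m₀ : ℕ, PolynomialVertexGrowth (matrixSet n (instList ε nxt p q m₀)) ↔
      Relation.ReflTransGen Step m₀ 0 := by
    intro m₀
    rw [matrixSet_inst, poly_re]
    exact concrete_iff nxt p q m₀ hp hq Step hSt
  refine ComputablePred.halting_problem 0 ⟨Classical.decPred _, ?_⟩
  let g : Nat.Partrec.Code → ℕ × List (List (List (ℤ × ℕ))) := fun c =>
    (n, instList ε nxt p q (initCfg (Encodable.encode c)))
  have hg : Primrec g := by
    refine Primrec.pair (Primrec.const n) ((primrec_instList ε nxt p q).comp ?_)
    unfold initCfg cEv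
    exact Primrec₂.natPair.comp (Primrec.const 1)
      (Primrec₂.natPair.comp Primrec.encode (Primrec.const _))
  have h1 : Partrec fun c => f (g c) := hf.comp hg.to_comp
  refine h1.of_eq fun c => ?_
  obtain ⟨b, hb, hb'⟩ := hcon (instList ε nxt p q (initCfg (Encodable.encode c)))
    (length_inst ε nxt p q _) (isInstance_inst ε nxt p q _)
  rw [key, ← halts_iff] at hb'
  have h2 : f (g c) = Part.some b := Part.eq_some_iff.2 hb
  rw [h2]
  congr 1
  by_cases h : (Nat.Partrec.Code.eval c 0).Dom
  · rw [hb'.2 h]
    simp [h]
  · have : b ≠ true := fun h' => h (hb'.1 h')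
    simp only [Bool.not_eq_true] at this
    rw [this]
    simp [h]

end Pool.Agent.Results.MP_4873f0_lc.Undecidable
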